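import Mathlib
import Pool.Agent.Work.MP_93fab9_mp.Final

set_option autoImplicit false

namespace Pool.Agent.Results.MP_93fab9_mp.SlowEigenvalue

open MeasureTheory
open scoped Kronecker

/-- The gate `V(θ, φ)`, with `t = (θ, φ)`. -/
noncomputable def gate (t : ℝ × ℝ) : Matrix (Fin 2) (Fin 2) ℂ :=
  !![(Real.cos t.1 : ℂ), (Real.sin t.1 : ℂ); -(Real.sin t.1 : ℂ), (Real.cos t.1 : ℂ)] *
    Matrix.diagonal ![Complex.exp (Complex.I * (t.2 / 2)), Complex.exp (-(Complex.I * (t.2 / 2)))]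

/-- The modes whose binary digit in position `l` is `0`: they index the pairs `{g, g + 2^l}`,
hence the gates, of the layer with stride `2^l` (this is layer `l + 1` of the problem). -/
abbrev LowMode (K l : ℕ) : Type := {i : Fin (2 ^ K) // (i : ℕ).testBit l = false}

theorem testBit_sub {i l : ℕ} (h : ¬ i.testBit l = false) : (i - 2 ^ l).testBit l = false := by
  have h' : i.testBit l = true := by simpa using h
  rw [(Pool.Agent.Work.MP_93fab9_mp.sub_facts h').2]; simp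

/-- The smaller mode of the pair containing `i` in the layer with stride `2^l`:
`i` itself if its binary digit in position `l` is `0`, and `i - 2^l` otherwise. -/
def lowMode {K : ℕ} (l : ℕ) (i : Fin (2 ^ K)) : LowMode K l :=
  if h : (i : ℕ).testBit l = false then ⟨i, h⟩
  else ⟨⟨(i : ℕ) - 2 ^ l, lt_of_le_of_lt (Nat.sub_le _ _) i.2⟩, testBit_sub h⟩

/-- The binary digit of `i` in position `l`. -/
def digit {K : ℕ} (l : ℕ) (i : Fin (2 ^ K)) : Fin 2 := if (i : ℕ).testBit l then 1 else 0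

/-- The layer with stride `2^l`: on each pair `{g, g + 2^l}` it acts, in the basis
`(e_g, e_(g + 2^l))`, by the gate with angles `w g`. -/
noncomputable def layer (K l : ℕ) (w : LowMode K l → ℝ × ℝ) :
    Matrix (Fin (2 ^ K)) (Fin (2 ^ K)) ℂ :=
  Matrix.of fun i j =>
    if lowMode l i = lowMode l j then gate (w (lowMode l j)) (digit l i) (digit l j) else 0

/-- The unitary butterfly `W_n = U_K ⋯ U_1`, `n = 2^K`, as a function of all the angles. -/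
noncomputable def butterfly (K : ℕ) (w : ∀ l : Fin K, LowMode K l → ℝ × ℝ) :
    Matrix (Fin (2 ^ K)) (Fin (2 ^ K)) ℂ :=
  ((List.ofFn fun l : Fin K => layer K l (w l)).reverse).prod

/-- The uniform distribution on `[0, 2π)`. -/
noncomputable def uniformAngle : Measure ℝ :=
  ProbabilityTheory.cond volume (Set.Ico 0 (2 * Real.pi))

/-- The joint law of all the angles: independent and uniform on `[0, 2π)`. -/
noncomputable def angleLaw (K : ℕ) : Measure (∀ l : Fin K, LowMode K l → ℝ × ℝ) :=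
  Measure.pi fun l : Fin K => Measure.pi fun _ : LowMode K l => uniformAngle.prod uniformAngle

/-- Index set of the basis `e_a ∧ e_b`, `a < b`, of `Λ²(ℂ^n)`. -/
abbrev Pair (n : ℕ) : Type := {p : Fin n × Fin n // p.1 < p.2}

/-- The matrix of `Λ²(W)` in the basis `e_a ∧ e_b` (`a < b`): the `2 × 2` minors of `W`. -/
def wedgeTwo {n : ℕ} (W : Matrix (Fin n) (Fin n) ℂ) : Matrix (Pair n) (Pair n) ℂ :=
  Matrix.of fun p q => W p.1.1 q.1.1 * W p.1.2 q.1.2 - W p.1.1 q.1.2 * W p.1.2 q.1.1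

/-- The map `Y ↦ 𝔼[Λ²(W_n)^{⊗2} Y (Λ²(W_n)^{⊗2})†]`, `n = 2^K`, on `End(Λ²ℂ^n ⊗ Λ²ℂ^n)`;
the expectation is taken entry by entry. -/
noncomputable def PhiFun (K : ℕ)
    (Y : Matrix (Pair (2 ^ K) × Pair (2 ^ K)) (Pair (2 ^ K) × Pair (2 ^ K)) ℂ) :
    Matrix (Pair (2 ^ K) × Pair (2 ^ K)) (Pair (2 ^ K) × Pair (2 ^ K)) ℂ :=
  Matrix.of fun p q => ∫ w,
    ((wedgeTwo (butterfly K w) ⊗ₖ wedgeTwo (butterfly K w)) * Y *
      (wedgeTwo (butterfly K w) ⊗ₖ wedgeTwo (butterfly K w)).conjTranspose) p q ∂(angleLaw K)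

theorem PhiFun_add (K : ℕ)
    (Y Z : Matrix (Pair (2 ^ K) × Pair (2 ^ K)) (Pair (2 ^ K) × Pair (2 ^ K)) ℂ) :
    PhiFun K (Y + Z) = PhiFun K Y + PhiFun K Z :=
  (Pool.Agent.Work.MP_93fab9_mp.Phi K).map_add' Y Z

theorem PhiFun_smul (K : ℕ) (c : ℂ)
    (Y : Matrix (Pair (2 ^ K) × Pair (2 ^ K)) (Pair (2 ^ K) × Pair (2 ^ K)) ℂ) :
    PhiFun K (c • Y) = c • PhiFun K Y :=
  (Pool.Agent.Work.MP_93fab9_mp.Phi K).map_smul' c Y

/-- The linear map `Φ_n[Y] = 𝔼[Λ²(W_n)^{⊗2} Y (Λ²(W_n)^{⊗2})†]`, `n = 2^K`, on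
`End(Λ²ℂ^n ⊗ Λ²ℂ^n)`. -/
noncomputable def Phi (K : ℕ) :
    Module.End ℂ (Matrix (Pair (2 ^ K) × Pair (2 ^ K)) (Pair (2 ^ K) × Pair (2 ^ K)) ℂ) where
  toFun := PhiFun K
  map_add' := PhiFun_add K
  map_smul' := PhiFun_smul K

lemma Phi_eq (K : ℕ) : Phi K = Pool.Agent.Work.MP_93fab9_mp.Phi K := rfl

/-- The eigenvalue bound of Q1 is false (hence Q1 is), and quantitatively: for every `K ≥ 5`, `Φ_n` (`n = 2^K`) has a real eigenvalue
between `(3/4)^K / 2` and `(3/4)^K = n^(-log₂(4/3))`. -/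
theorem result :
    (¬ ∃ C : ℝ, 0 < C ∧ ∃ K₀ : ℕ, ∀ K ≥ K₀,
        ∀ t : ℂ, (Phi K).HasEigenvalue t → t ≠ 1 → ‖t‖ ≤ C / 2 ^ K) ∧
    ∀ K ≥ 5, ∃ t : ℝ, 1 / 2 * (3 / 4) ^ K ≤ t ∧ t ≤ (3 / 4) ^ K ∧
      (Phi K).HasEigenvalue (t : ℂ) := by
  have key : ∀ K ≥ 5, ∃ t : ℝ, 1 / 2 * (3 / 4) ^ K ≤ t ∧ t ≤ (3 / 4) ^ K ∧
      (Phi K).HasEigenvalue (t : ℂ) := by
    intro K hK
    rw [Phi_eq]
    exact Pool.Agent.Work.MP_93fab9_mp.slow_eigenvalue K hK
  refine ⟨?_, key⟩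
  rintro ⟨C, hC, K₀, h⟩
  obtain ⟨N, hN⟩ := pow_unbounded_of_one_lt (2 * C) (by norm_num : (1 : ℝ) < 3 / 2)
  set K := max (max K₀ 5) N with hKdef
  have hK0 : K₀ ≤ K := le_trans (le_max_left _ _) (le_max_left _ _)
  have hK5 : 5 ≤ K := le_trans (le_max_right _ _) (le_max_left _ _)
  have hKN : N ≤ K := le_max_right _ _
  have hpow : 2 * C < (3 / 2 : ℝ) ^ K :=
    lt_of_lt_of_le hN (pow_le_pow_right₀ (by norm_num) hKN)
  obtain ⟨t, ht1, ht2, ht3⟩ := key K hK5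
  have hlt1 : ((3 : ℝ) / 4) ^ K < 1 := pow_lt_one₀ (by norm_num) (by norm_num) (by omega)
  have ht0 : 0 < t := lt_of_lt_of_le (by positivity) ht1
  have hne : (t : ℂ) ≠ 1 := by
    intro h1
    have : t = 1 := by exact_mod_cast h1
    linarith
  have h2 := h K hK0 (t : ℂ) ht3 hne
  rw [Complex.norm_real, Real.norm_eq_abs, abs_of_pos ht0] at h2
  have h3 : 1 / 2 * (3 / 4 : ℝ) ^ K ≤ C / 2 ^ K := ht1.trans h2
  have h4 : (3 / 4 : ℝ) ^ K = (3 / 2) ^ K / 2 ^ K := by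
    rw [← div_pow]; norm_num
  rw [h4, ← mul_div_assoc, div_le_div_iff_of_pos_right (by positivity)] at h3
  linarith

end Pool.Agent.Results.MP_93fab9_mp.SlowEigenvalue
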